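import Pool.Agent.helper27.TD.Spec2

/-!
# SPC: spacing of slopes
-/

set_option autoImplicit false

namespace Pool.Agent.helper27.TD

open Finset Polynomial Pool.Agent.helper47.RA

/-- Reals in `[-M, M]` with distances at least `d`. -/
theorem SPC_pack (M d : ℝ) (hd : 0 < d) (hM : 0 ≤ M) (S : Finset ℤ) (r : ℤ → ℝ)
    (h1 : ∀ i ∈ S, |r i| ≤ M) (h2 : ∀ i ∈ S, ∀ j ∈ S, i ≠ j → d ≤ |r i - r j|) :
    (S.card : ℝ) ≤ 1 + 2 * M / d := by
  have hmaps : ∀ i ∈ S, ⌊(r i + M) / d⌋₊ ∈ Finset.range (⌊2 * M / d⌋₊ + 1) := by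
    intro i hi
    rw [Finset.mem_range, Nat.lt_succ_iff]
    refine Nat.floor_le_floor ?_
    refine div_le_div_of_nonneg_right ?_ hd.le
    have := (abs_le.mp (h1 i hi)).2
    linarith
  have hinj : Set.InjOn (fun i => ⌊(r i + M) / d⌋₊) (S : Set ℤ) := by
    intro i hi j hj hij
    by_contra hne
    have h3 := h2 i hi j hj hne
    have hfl : ⌊(r i + M) / d⌋₊ = ⌊(r j + M) / d⌋₊ := hij
    have hi0 : 0 ≤ (r i + M) / d :=
      div_nonneg (by have := (abs_le.mp (h1 i hi)).1; linarith) hd.le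
    have hj0 : 0 ≤ (r j + M) / d :=
      div_nonneg (by have := (abs_le.mp (h1 j hj)).1; linarith) hd.le
    have a1 := Nat.floor_le hi0
    have a2 := Nat.lt_floor_add_one ((r i + M) / d)
    have b1 := Nat.floor_le hj0
    have b2 := Nat.lt_floor_add_one ((r j + M) / d)
    rw [hfl] at a1 a2
    have h4 : |(r i + M) / d - (r j + M) / d| < 1 := by
      rw [abs_lt]
      constructor <;> linarith
    have h5 : (r i + M) / d - (r j + M) / d = (r i - r j) / d := by ring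
    rw [h5, abs_div, abs_of_pos hd, div_lt_one hd] at h4
    linarith
  have hc := Finset.card_le_card_of_injOn _ hmaps hinj
  rw [Finset.card_range] at hc
  have h6 : ((⌊2 * M / d⌋₊ : ℕ) : ℝ) ≤ 2 * M / d := Nat.floor_le (by positivity)
  have h7 : (S.card : ℝ) ≤ ((⌊2 * M / d⌋₊ + 1 : ℕ) : ℝ) := by exact_mod_cast hc
  push_cast at h7
  linarith

theorem SPC : SPC_stmt := by
  intro z B K Δ hz hB hK hΔ S u v h1 h2
  have hs : 0 < √z := Real.sqrt_pos.mpr hz
  have hss : √z * √z = z := Real.mul_self_sqrt hz.le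
  set s := √z with hsdef
  have hd : 0 < s * Δ / (2 * B ^ 2) := by positivity
  have hM : 0 ≤ K / B ^ 2 := by positivity
  have key := SPC_pack (K / B ^ 2) (s * Δ / (2 * B ^ 2)) hd hM S
    (fun i => ((u i : ℝ) - s * v i) / ((u i : ℝ) + s * v i)) ?_ ?_
  · refine key.trans (le_of_eq ?_)
    field_simp
    ring
  · intro i hi
    obtain ⟨a1, _, a3⟩ := h1 i hi
    have hp : 0 < |(u i : ℝ) + s * v i| := lt_of_lt_of_le hB a1
    have hne : (u i : ℝ) + s * v i ≠ 0 := abs_pos.mp hp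
    have e1 : ((u i : ℝ) - s * v i) / ((u i : ℝ) + s * v i) =
        ((u i : ℝ) ^ 2 - z * (v i : ℝ) ^ 2) / ((u i : ℝ) + s * v i) ^ 2 := by
      rw [div_eq_div_iff hne (pow_ne_zero 2 hne), ← hss]
      ring
    rw [e1, abs_div, abs_pow]
    refine div_le_div₀ hK a3 (by positivity) ?_
    exact pow_le_pow_left₀ hB.le a1 2
  · intro i hi j hj hij
    obtain ⟨a1, a2, _⟩ := h1 i hi
    obtain ⟨b1, b2, _⟩ := h1 j hj
    have hpi : 0 < |(u i : ℝ) + s * v i| := lt_of_lt_of_le hB a1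
    have hnei : (u i : ℝ) + s * v i ≠ 0 := abs_pos.mp hpi
    have hpj : 0 < |(u j : ℝ) + s * v j| := lt_of_lt_of_le hB b1
    have hnej : (u j : ℝ) + s * v j ≠ 0 := abs_pos.mp hpj
    have h3 := h2 i hi j hj hij
    push_cast at h3
    have e1 : ((u i : ℝ) - s * v i) / ((u i : ℝ) + s * v i) -
        ((u j : ℝ) - s * v j) / ((u j : ℝ) + s * v j) =
        (2 * s * ((u i : ℝ) * v j - u j * v i)) /
          (((u i : ℝ) + s * v i) * ((u j : ℝ) + s * v j)) := by
      rw [div_sub_div _ _ hnei hnej]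
      congr 1
      ring
    show s * Δ / (2 * B ^ 2) ≤ |((u i : ℝ) - s * v i) / ((u i : ℝ) + s * v i) -
        ((u j : ℝ) - s * v j) / ((u j : ℝ) + s * v j)|
    rw [e1, abs_div, abs_mul, abs_mul (((u i : ℝ) + s * v i)), abs_of_pos (by positivity : 0 < 2 * s)]
    rw [div_le_div_iff₀ (by positivity) (mul_pos hpi hpj)]
    have h4 : |(u i : ℝ) + s * v i| * |(u j : ℝ) + s * v j| ≤ (2 * B) * (2 * B) :=
      mul_le_mul a2 b2 hpj.le (by linarith)
    calc s * Δ * (|(u i : ℝ) + s * v i| * |(u j : ℝ) + s * v j|)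
        ≤ s * Δ * ((2 * B) * (2 * B)) := mul_le_mul_of_nonneg_left h4 (by positivity)
      _ = 2 * s * Δ * (2 * B ^ 2) := by ring
      _ ≤ 2 * s * |(u i : ℝ) * v j - u j * v i| * (2 * B ^ 2) := by
          refine mul_le_mul_of_nonneg_right ?_ (by positivity)
          exact mul_le_mul_of_nonneg_left h3 (by positivity)

end Pool.Agent.helper27.TD
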